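import Pool.Agent.helper53.SP4.Spec

/-!
# Row `sp4:S4I` (MP_561ff4_al)

The involutions of `Sp(4, F)`.
-/

set_option autoImplicit false

namespace Pool.Agent.SP4

open Pool.Agent.GS

section
variable {F : Type} [Field F]

theorem S4I_add (u v w : Fin 4 → F) : B (u + v) w = B u w + B v w := by
  unfold B
  simp only [Pi.add_apply]
  ring

theorem S4I_smul (c : F) (u w : Fin 4 → F) : B (c • u) w = c * B u w := by
  unfold B
  simp only [Pi.smul_apply, smul_eq_mul]
  ring

theorem S4I_comm (u w : Fin 4 → F) : B u w = B w u := by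
  unfold B
  ring

theorem S4I_add' (u v w : Fin 4 → F) : B w (u + v) = B w u + B w v := by
  rw [S4I_comm w, S4I_add, S4I_comm u, S4I_comm v]

theorem S4I_smul' (c : F) (u w : Fin 4 → F) : B w (c • u) = c * B w u := by
  rw [S4I_comm w, S4I_smul, S4I_comm u]

theorem S4I_two [CharP F 2] (v : Fin 4 → F) : v + v = 0 := by
  funext i
  exact CharTwo.add_self_eq_zero (v i)

theorem S4I_sq [CharP F 2] [Finite F] (c : F) : ∃ d : F, d * d = c := by
  obtain ⟨d, hd⟩ := FiniteField.isSquare_of_char_two (ringChar.eq F 2) c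
  exact ⟨d, hd.symm⟩

theorem S4I_dual (hnd : ∀ v : Fin 4 → F, (∀ w, B v w = 0) → v = 0) (a b : Fin 4 → F) (h : LinearIndependent F ![a, b]) :
    ∃ w, B a w = 1 ∧ B b w = 0 := by
  by_contra hcon
  push Not at hcon
  rw [LinearIndependent.pair_iff] at h
  have h1 : ∀ w, B b w = 0 → B a w = 0 := by
    intro w hw
    by_contra hne
    refine hcon ((B a w)⁻¹ • w) ?_ ?_
    · rw [S4I_smul', inv_mul_cancel₀ hne]
    · rw [S4I_smul', hw, mul_zero]
  have ha : a ≠ 0 := by
    intro h0
    have := (h 1 0 (by rw [h0, smul_zero, zero_smul, add_zero])).1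
    exact one_ne_zero this
  have hb : b ≠ 0 := by
    intro h0
    have := (h 0 1 (by rw [h0, smul_zero, zero_smul, add_zero])).2
    exact one_ne_zero this
  obtain ⟨w₀, hw₀⟩ : ∃ w, B b w ≠ 0 := by
    by_contra hc
    push Not at hc
    exact hb (hnd b hc)
  have h2 : B b w₀ • a + (-(B a w₀)) • b = 0 := by
    refine hnd _ fun w => ?_
    rw [S4I_add, S4I_smul, S4I_smul]
    have h3 := h1 (w + (-(B b w / B b w₀)) • w₀) (by
      rw [S4I_add', S4I_smul']
      field_simp
      ring)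
    rw [S4I_add', S4I_smul'] at h3
    have h4 : B a w = B b w / B b w₀ * B a w₀ := by linear_combination h3
    rw [h4]
    field_simp
    ring
  exact hw₀ (h _ _ h2).1

/-- the case `α ≠ 0` -/
theorem S4I_C [CharP F 2] [Finite F] (a₀ b₀ : Fin 4 → F) (α β γ : F) (t : SG F) (hP : Pl a₀ b₀) (hα : α ≠ 0)
    (hdet : α * γ - β * β ≠ 0)
    (hN : ∀ w, (t : (Fin 4 → F) ≃ₗ[F] (Fin 4 → F)) w = w + ((α * B a₀ w + β * B b₀ w) • a₀ + (β * B a₀ w + γ * B b₀ w) • b₀)) :
    ∃ a b, Pl a b ∧ IsC2 a b t := by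
  obtain ⟨r, hr⟩ := S4I_sq α
  obtain ⟨s, hs⟩ := S4I_sq (γ - β * β / α)
  have hr0 : r ≠ 0 := fun h => hα (by rw [← hr, h, mul_zero])
  have hs0 : s ≠ 0 := by
    intro h
    rw [h, mul_zero] at hs
    apply hdet
    field_simp at hs
    linear_combination -hs
  have h2 : (2 : F) = 0 := CharTwo.two_eq_zero
  refine ⟨r • a₀ + (β / r) • b₀, s • b₀, ⟨?_, ?_⟩, fun w => ?_⟩
  · rw [LinearIndependent.pair_iff]
    intro x y hxy
    have h3 : (x * r) • a₀ + (x * (β / r) + y * s) • b₀ = 0 := by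
      rw [← hxy]
      module
    obtain ⟨h4, h5⟩ := (LinearIndependent.pair_iff.1 hP.1) _ _ h3
    have hx : x = 0 := (mul_eq_zero.1 h4).resolve_right hr0
    refine ⟨hx, ?_⟩
    rw [hx, zero_mul, zero_add] at h5
    exact (mul_eq_zero.1 h5).resolve_right hs0
  · rw [S4I_smul', S4I_add, S4I_smul, S4I_smul, hP.2]
    have : B b₀ b₀ = 0 := by
      unfold B
      linear_combination (b₀ 0 * b₀ 3 + b₀ 1 * b₀ 2) * h2
    rw [this]
    ring
  · rw [hN w, S4I_add, S4I_smul, S4I_smul, S4I_smul]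
    have e1 : (r * B a₀ w + β / r * B b₀ w) • (r • a₀ + (β / r) • b₀) + (s * B b₀ w) • (s • b₀) =
        ((r * r) * B a₀ w + β * B b₀ w) • a₀ + (β * B a₀ w + ((β * β) / (r * r) + s * s) * B b₀ w) • b₀ := by
      have e2 : β / r * r = β := div_mul_cancel₀ β hr0
      have e3 : β / r * (β / r) = (β * β) / (r * r) := div_mul_div_comm _ _ _ _
      rw [smul_add, smul_smul, smul_smul, smul_smul, add_assoc, ← add_smul]
      congr 2
      · linear_combination (B b₀ w) * e2
      · linear_combination (B a₀ w) * e2 + (B b₀ w) * e3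
    rw [e1, hr, hs]
    congr 3
    ring

end

theorem S4I (hS4B : S4B_stmt) : S4I_stmt := by
  intro F _ _ _ t ht ht1
  obtain ⟨b1, b2, hnd, b4, b5, b6, b7, b8, b9, b10, b11, hsn⟩ := hS4B F
  have htt : ∀ w, (t : (Fin 4 → F) ≃ₗ[F] (Fin 4 → F)) ((t : (Fin 4 → F) ≃ₗ[F] (Fin 4 → F)) w) = w := by
    intro w
    have : ((t * t : SG F) : (Fin 4 → F) ≃ₗ[F] (Fin 4 → F)) w = ((1 : SG F) : (Fin 4 → F) ≃ₗ[F] (Fin 4 → F)) w := by rw [ht]
    exact this
  set T : (Fin 4 → F) ≃ₗ[F] (Fin 4 → F) := (t : (Fin 4 → F) ≃ₗ[F] (Fin 4 → F)) with hT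
  have hB : ∀ u w, B (T u) (T w) = B u w := t.2
  let N : (Fin 4 → F) →ₗ[F] (Fin 4 → F) := (T : (Fin 4 → F) →ₗ[F] (Fin 4 → F)) + LinearMap.id
  have hNd : ∀ w, N w = T w + w := fun w => rfl
  have hTN : ∀ w, T w = w + N w := by
    intro w
    rw [hNd, add_comm (T w) w, ← add_assoc, S4I_two, zero_add]
  have hsym : ∀ u w, B (N u) w = B u (N w) := by
    intro u w
    rw [hNd, hNd, S4I_add, S4I_add']
    have : B (T u) w = B u (T w) := by
      have := hB (T u) w
      rw [htt] at this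
      exact this.symm
    rw [this]
  have hNN : ∀ w, N (N w) = 0 := by
    intro w
    rw [hNd (N w), hNd w, map_add, htt, add_comm w (T w), S4I_two]
  have hiso : ∀ u w, B (N u) (N w) = 0 := by
    intro u w
    rw [hsym, hNN]
    unfold B
    simp
  have hN0 : ∃ u, N u ≠ 0 := by
    by_contra hcon
    push Not at hcon
    apply ht1
    refine Subtype.ext (LinearEquiv.ext fun w => ?_)
    change T w = w
    rw [hTN, hcon, add_zero]
  obtain ⟨u₀, hu₀⟩ := hN0
  by_cases hA : ∀ w, ∃ c : F, N w = c • N u₀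
  · -- rank one
    left
    choose f hf using hA
    obtain ⟨w₁, hw₁⟩ : ∃ w, B (N u₀) w = 1 := by
      by_contra hcon
      push Not at hcon
      apply hu₀
      refine hnd _ fun w => ?_
      by_contra hne
      exact hcon ((B (N u₀) w)⁻¹ • w) (by rw [S4I_smul', inv_mul_cancel₀ hne])
    have hfu : ∀ u, f u = f w₁ * B (N u₀) u := by
      intro u
      have h := hsym u w₁
      rw [hf u, hf w₁, S4I_smul, S4I_smul', hw₁, mul_one, S4I_comm u] at h
      exact h
    obtain ⟨d, hd⟩ := S4I_sq (f w₁)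
    have hc : f w₁ ≠ 0 := by
      intro h
      apply hu₀
      rw [hf u₀, hfu u₀, h, zero_mul, zero_smul]
    have hd0 : d ≠ 0 := fun h => hc (by rw [← hd, h, mul_zero])
    refine ⟨d • N u₀, smul_ne_zero hd0 hu₀, fun w => ?_⟩
    change T w = _
    rw [hTN w, hf w, hfu w, S4I_smul, smul_smul, ← hd]
    congr 2
    ring
  · -- rank two
    right
    push Not at hA
    obtain ⟨u₁, hu₁⟩ := hA
    have hind : LinearIndependent F ![N u₀, N u₁] := by
      rw [LinearIndependent.pair_iff]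
      intro x y hxy
      have hy : y = 0 := by
        by_contra hy
        apply hu₁ (-(y⁻¹ * x))
        have h3 : N u₁ = y⁻¹ • (y • N u₁) := by rw [smul_smul, inv_mul_cancel₀ hy, one_smul]
        have h4 : y • N u₁ = -(x • N u₀) := by rw [eq_neg_iff_add_eq_zero, add_comm]; exact hxy
        rw [h3, h4, smul_neg, smul_smul, neg_smul]
      refine ⟨?_, hy⟩
      rw [hy, zero_smul, add_zero] at hxy
      exact (smul_eq_zero.1 hxy).resolve_right hu₀
    have hP : Pl (N u₀) (N u₁) := ⟨hind, hiso _ _⟩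
    have hind' : LinearIndependent F ![N u₁, N u₀] := by
      rw [LinearIndependent.pair_iff] at hind ⊢
      intro x y hxy
      obtain ⟨h1, h2⟩ := hind y x (by rw [add_comm]; exact hxy)
      exact ⟨h2, h1⟩
    have hP' : Pl (N u₁) (N u₀) := ⟨hind', hiso _ _⟩
    have hsp : ∀ w, ∃ f g : F, N w = f • N u₀ + g • N u₁ := by
      intro w
      have := hsn (N u₀) (N u₁) (N w) hP (hiso _ _) (hiso _ _)
      unfold Sn at this
      rw [Submodule.mem_span_pair] at this
      obtain ⟨f, g, h⟩ := this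
      exact ⟨f, g, h.symm⟩
    choose f g hfg using hsp
    obtain ⟨w₁, h11, h12⟩ := S4I_dual hnd (N u₀) (N u₁) hind
    obtain ⟨w₂, h22, h21⟩ := S4I_dual hnd (N u₁) (N u₀) hind'
    have hS : ∀ u w, f u * B (N u₀) w + g u * B (N u₁) w = f w * B (N u₀) u + g w * B (N u₁) u := by
      intro u w
      have h := hsym u w
      rw [hfg u, hfg w, S4I_add, S4I_add', S4I_smul, S4I_smul, S4I_smul', S4I_smul', S4I_comm u, S4I_comm u] at h
      exact h
    have hf : ∀ u, f u = f w₁ * B (N u₀) u + g w₁ * B (N u₁) u := by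
      intro u
      have h := hS u w₁
      rw [h11, h12, mul_one, mul_zero, add_zero] at h
      exact h
    have hg : ∀ u, g u = f w₂ * B (N u₀) u + g w₂ * B (N u₁) u := by
      intro u
      have h := hS u w₂
      rw [h21, h22, mul_one, mul_zero, zero_add] at h
      exact h
    have hβ : f w₂ = g w₁ := by
      have h := hf w₂
      rw [h21, h22, mul_zero, mul_one, zero_add] at h
      exact h
    -- uniqueness of coefficients
    have huniq : ∀ x y x' y' : F, x • N u₀ + y • N u₁ = x' • N u₀ + y' • N u₁ → x = x' ∧ y = y' := by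
      intro x y x' y' h
      rw [LinearIndependent.pair_iff] at hind
      obtain ⟨h1, h2⟩ := hind (x - x') (y - y') (by
        rw [sub_smul, sub_smul]
        have : x • N u₀ + y • N u₁ - (x' • N u₀ + y' • N u₁) = 0 := by rw [h, sub_self]
        rw [← this]
        abel)
      exact ⟨sub_eq_zero.1 h1, sub_eq_zero.1 h2⟩
    obtain ⟨f0, g0⟩ := huniq (f u₀) (g u₀) 1 0 (by rw [← hfg u₀, one_smul, zero_smul, add_zero])
    obtain ⟨f1, g1⟩ := huniq (f u₁) (g u₁) 0 1 (by rw [← hfg u₁, one_smul, zero_smul, zero_add])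
    rw [hf u₀] at f0
    rw [hg u₀, hβ] at g0
    rw [hf u₁] at f1
    rw [hg u₁, hβ] at g1
    have hdet : f w₁ * g w₂ - g w₁ * g w₁ ≠ 0 := by
      intro h
      have h3 : (f w₁ * g w₂ - g w₁ * g w₁) * (B (N u₀) u₀ * B (N u₁) u₁ - B (N u₀) u₁ * B (N u₁) u₀) = 1 := by
        linear_combination (g w₁ * B (N u₀) u₁ + g w₂ * B (N u₁) u₁) * f0 + g1 - (g w₁ * B (N u₀) u₀ + g w₂ * B (N u₁) u₀) * f1
      rw [h, zero_mul] at h3
      exact zero_ne_one h3
    have hform : ∀ w, T w = w + ((f w₁ * B (N u₀) w + g w₁ * B (N u₁) w) • N u₀ + (g w₁ * B (N u₀) w + g w₂ * B (N u₁) w) • N u₁) := by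
      intro w
      rw [hTN w, hfg w, hf w, hg w, hβ]
    by_cases hα : f w₁ = 0
    · by_cases hγ : g w₂ = 0
      · left
        have hβ0 : g w₁ ≠ 0 := by
          intro h
          apply hdet
          rw [hα, hγ, h]
          ring
        refine ⟨g w₁ • N u₀, N u₁, ⟨?_, ?_⟩, fun w => ?_⟩
        · rw [LinearIndependent.pair_iff] at hind ⊢
          intro x y hxy
          rw [smul_smul] at hxy
          obtain ⟨h1, h2⟩ := hind _ _ hxy
          exact ⟨(mul_eq_zero.1 h1).resolve_right hβ0, h2⟩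
        · rw [S4I_smul, hiso, mul_zero]
        · change T w = _
          rw [hform w, hα, hγ, S4I_smul, smul_smul]
          congr 3
          · ring
          · ring
      · right
        refine S4I_C (N u₁) (N u₀) (g w₂) (g w₁) (f w₁) t hP' hγ ?_ fun w => ?_
        · intro h
          exact hdet (by rw [← h]; ring)
        · change T w = _
          rw [hform w, add_comm ((f w₁ * B (N u₀) w + g w₁ * B (N u₁) w) • N u₀)]
          congr 3
          · ring
          · ring
    · right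
      exact S4I_C (N u₀) (N u₁) (f w₁) (g w₁) (g w₂) t hP hα hdet hform

end Pool.Agent.SP4
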